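import Pool.Agent.Q240.KT.Stm

/-! # KT-EI (helper177, for helper240): an exponential integral -/

set_option autoImplicit false

namespace Pool.Agent.Q177.KT.EI
open Pool.Agent.Q240.KT MeasureTheory

/-- the phase -/
noncomputable def ph (k s : ℝ) : ℝ := k * s - 2 * Real.pi * Real.exp s

/-- its derivative -/
noncomputable def pp (k s : ℝ) : ℝ := k - 2 * Real.pi * Real.exp s

lemma ep_eq (k s : ℝ) : ep k (-(2 * Real.pi)) s = Complex.exp (-((ph k s : ℝ) : ℂ) * Complex.I) := by
  unfold ep ph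
  congr 3
  push_cast
  ring

lemma norm_ep' (k s : ℝ) : ‖ep k (-(2 * Real.pi)) s‖ = 1 := by
  rw [ep_eq]
  have : -((ph k s : ℝ) : ℂ) * Complex.I = ((-(ph k s) : ℝ) : ℂ) * Complex.I := by push_cast; ring
  rw [this, Complex.norm_exp_ofReal_mul_I]

lemma cont_ep (k : ℝ) : Continuous (fun s => ep k (-(2 * Real.pi)) s) := by
  simp only [ep_eq]
  unfold ph
  fun_prop

lemma cont_pp (k : ℝ) : Continuous (pp k) := by
  unfold pp
  fun_prop

lemma hd_ph (k s : ℝ) : HasDerivAt (ph k) (pp k s) s := by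
  have h1 : HasDerivAt (fun s : ℝ => k * s) (k * 1) s := (hasDerivAt_id s).const_mul k
  have h2 : HasDerivAt (fun s : ℝ => 2 * Real.pi * Real.exp s) (2 * Real.pi * Real.exp s) s :=
    (Real.hasDerivAt_exp s).const_mul _
  have h3 := h1.sub h2
  rw [mul_one] at h3
  exact h3

lemma hd_pp (k s : ℝ) : HasDerivAt (pp k) (-(2 * Real.pi * Real.exp s)) s := by
  have h2 : HasDerivAt (fun s : ℝ => 2 * Real.pi * Real.exp s) (2 * Real.pi * Real.exp s) s :=
    (Real.hasDerivAt_exp s).const_mul _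
  exact h2.const_sub k

lemma hd_ep (k s : ℝ) : HasDerivAt (fun s => ep k (-(2 * Real.pi)) s)
    (ep k (-(2 * Real.pi)) s * (-((pp k s : ℝ) : ℂ) * Complex.I)) s := by
  have h1 : HasDerivAt (fun s : ℝ => -((ph k s : ℝ) : ℂ) * Complex.I) (-((pp k s : ℝ) : ℂ) * Complex.I) s :=
    ((hd_ph k s).ofReal_comp.neg).mul_const _
  have h2 := h1.cexp
  simp only [ep_eq]
  exact h2

/-- the first derivative test for this phase -/
lemma fdt (k α β l : ℝ) (hab : α ≤ β) (hl : 0 < l)
    (h : (∀ s ∈ Set.Icc α β, l ≤ pp k s) ∨ (∀ s ∈ Set.Icc α β, pp k s ≤ -l)) :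
    ‖∫ s in α..β, ep k (-(2 * Real.pi)) s‖ ≤ 3 / l := by
  have hpi := Real.pi_pos
  have hne : ∀ s ∈ Set.Icc α β, pp k s ≠ 0 := by
    intro s hs
    rcases h with h | h
    · have := h s hs; linarith
    · have := h s hs; linarith
  have hneC : ∀ s ∈ Set.Icc α β, ((pp k s : ℝ) : ℂ) ≠ 0 := fun s hs => by exact_mod_cast hne s hs
  have hinv : ∀ s ∈ Set.Icc α β, |(pp k s)⁻¹| ≤ 1 / l := by
    intro s hs
    rw [abs_inv, inv_eq_one_div]
    apply one_div_le_one_div_of_le hl
    rcases h with h | h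
    · exact (h s hs).trans (le_abs_self _)
    · have := h s hs
      exact (by linarith : l ≤ -(pp k s)).trans (neg_le_abs _)
  have hIcc : Set.uIcc α β = Set.Icc α β := Set.uIcc_of_le hab
  -- the primitive
  set E : ℝ → ℂ := fun s => ep k (-(2 * Real.pi)) s with hE
  set q : ℝ → ℝ := fun s => (2 * Real.pi * Real.exp s) / (pp k s) ^ 2 with hq
  have hdinv : ∀ s ∈ Set.Icc α β, HasDerivAt (fun s => (pp k s)⁻¹) (q s) s := by
    intro s hs
    have h1 := (hd_pp k s).inv (hne s hs)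
    have h2 : q s = -(-(2 * Real.pi * Real.exp s)) / (pp k s) ^ 2 := by simp only [hq]; rw [neg_neg]
    rw [h2]
    exact h1
  have hG : ∀ s ∈ Set.Icc α β, HasDerivAt (fun s => Complex.I * E s * (((pp k s)⁻¹ : ℝ) : ℂ))
      (E s + Complex.I * E s * ((q s : ℝ) : ℂ)) s := by
    intro s hs
    have h1 := ((hd_ep k s).const_mul Complex.I).mul (hdinv s hs).ofReal_comp
    have h2 : ((pp k s : ℝ) : ℂ) * (((pp k s)⁻¹ : ℝ) : ℂ) = 1 := by
      rw [Complex.ofReal_inv]; exact mul_inv_cancel₀ (hneC s hs)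
    have h3 : E s + Complex.I * E s * ((q s : ℝ) : ℂ) =
        Complex.I * (ep k (-(2 * Real.pi)) s * (-((pp k s : ℝ) : ℂ) * Complex.I)) * (((pp k s)⁻¹ : ℝ) : ℂ) +
        Complex.I * ep k (-(2 * Real.pi)) s * ((q s : ℝ) : ℂ) := by
      simp only [hE]
      linear_combination ((ep k (-(2 * Real.pi)) s) * Complex.I ^ 2) * h2 +
        (ep k (-(2 * Real.pi)) s) * Complex.I_sq
    rw [h3]
    exact h1
  have hqc : ContinuousOn q (Set.Icc α β) := by
    simp only [hq]
    refine ContinuousOn.div (by fun_prop) ((cont_pp k).continuousOn.pow 2) fun s hs => pow_ne_zero 2 (hne s hs)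
  have hEc : Continuous E := cont_ep k
  have hi1 : IntervalIntegrable E volume α β := hEc.intervalIntegrable _ _
  have hi2 : IntervalIntegrable (fun s => Complex.I * E s * ((q s : ℝ) : ℂ)) volume α β := by
    apply ContinuousOn.intervalIntegrable
    rw [hIcc]
    exact (continuous_const.mul hEc).continuousOn.mul (Complex.continuous_ofReal.comp_continuousOn hqc)
  have hi3 : IntervalIntegrable q volume α β := by
    apply ContinuousOn.intervalIntegrable
    rw [hIcc]
    exact hqc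
  have h1 := intervalIntegral.integral_eq_sub_of_hasDerivAt (a := α) (b := β)
    (f := fun s => Complex.I * E s * (((pp k s)⁻¹ : ℝ) : ℂ))
    (f' := fun s => E s + Complex.I * E s * ((q s : ℝ) : ℂ)) (by rw [hIcc]; exact hG) (hi1.add hi2)
  rw [intervalIntegral.integral_add hi1 hi2] at h1
  have h2 := intervalIntegral.integral_eq_sub_of_hasDerivAt (a := α) (b := β)
    (f := fun s => (pp k s)⁻¹) (f' := q) (by rw [hIcc]; exact hdinv) hi3
  have h3 : ‖∫ s in α..β, Complex.I * E s * ((q s : ℝ) : ℂ)‖ ≤ 1 / l := by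
    have h4 : ‖∫ s in α..β, Complex.I * E s * ((q s : ℝ) : ℂ)‖ ≤ ∫ s in α..β, q s := by
      refine (intervalIntegral.norm_integral_le_integral_norm hab).trans (le_of_eq ?_)
      refine intervalIntegral.integral_congr fun s _ => ?_
      have h5 : 0 ≤ q s := by simp only [hq]; positivity
      simp only [hE]
      rw [norm_mul, norm_mul, Complex.norm_I, norm_ep', Complex.norm_real, Real.norm_eq_abs, abs_of_nonneg h5]
      ring
    refine h4.trans ?_
    rw [h2]
    have ha := hinv α ⟨le_rfl, hab⟩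
    have hb := hinv β ⟨hab, le_rfl⟩
    rcases h with h | h
    · have h6 : 0 < (pp k α)⁻¹ := inv_pos.2 (lt_of_lt_of_le hl (h α ⟨le_rfl, hab⟩))
      have := (abs_le.1 hb).2
      linarith
    · have h6 : (pp k β)⁻¹ < 0 := inv_lt_zero.2 (by have := h β ⟨hab, le_rfl⟩; linarith)
      have := (abs_le.1 ha).1
      linarith
  have h4 : ∀ s ∈ Set.Icc α β, ‖Complex.I * E s * (((pp k s)⁻¹ : ℝ) : ℂ)‖ ≤ 1 / l := by
    intro s hs
    simp only [hE]
    rw [norm_mul, norm_mul, Complex.norm_I, norm_ep', Complex.norm_real, Real.norm_eq_abs]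
    have := hinv s hs
    linarith
  have h5 : ∫ s in α..β, E s = Complex.I * E β * (((pp k β)⁻¹ : ℝ) : ℂ) - Complex.I * E α * (((pp k α)⁻¹ : ℝ) : ℂ) -
      ∫ s in α..β, Complex.I * E s * ((q s : ℝ) : ℂ) := by
    rw [← h1]; ring
  rw [h5]
  refine (norm_sub_le _ _).trans ?_
  have h6 := (norm_sub_le (Complex.I * E β * (((pp k β)⁻¹ : ℝ) : ℂ)) (Complex.I * E α * (((pp k α)⁻¹ : ℝ) : ℂ)))
  have h7 := h4 β ⟨hab, le_rfl⟩
  have h8 := h4 α ⟨le_rfl, hab⟩
  have h9 : 3 / l = 1 / l + 1 / l + 1 / l := by ring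
  rw [h9]
  linarith

lemma triv (k a b : ℝ) (hab : a ≤ b) : ‖∫ s in a..b, ep k (-(2 * Real.pi)) s‖ ≤ b - a := by
  have h := intervalIntegral.norm_integral_le_of_norm_le_const (a := a) (b := b) (C := 1)
    (f := fun s => ep k (-(2 * Real.pi)) s) (fun s _ => (norm_ep' k s).le)
  rw [one_mul, abs_of_nonneg (by linarith)] at h
  exact h

theorem ei : S_EI := by
  refine ⟨14, by norm_num, ?_⟩
  intro k a b hk hab
  have hk0 : 0 < k := by linarith
  have hpi := Real.pi_pos
  set r : ℝ := k ^ (1 / 2 : ℝ) with hr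
  have hr0 : 0 < r := Real.rpow_pos_of_pos hk0 _
  have hr1 : 1 ≤ r := Real.one_le_rpow hk (by norm_num)
  have hrr : r * r = k := by
    rw [hr, ← Real.rpow_add hk0]; norm_num
  set δ : ℝ := 1 / r with hδ
  have hδ0 : 0 < δ := by positivity
  have hδ1 : δ ≤ 1 := by rw [hδ, div_le_one hr0]; exact hr1
  have hkδ : k * δ = r := by rw [hδ, ← hrr]; field_simp
  set x₀ : ℝ := Real.log (k / (2 * Real.pi)) with hx₀
  have hx : 2 * Real.pi * Real.exp x₀ = k := by
    rw [hx₀, Real.exp_log (by positivity)]; field_simp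
  have hL : ∀ s, s ≤ x₀ - δ → r / 2 ≤ pp k s := by
    intro s hs
    have h1 : Real.exp s ≤ Real.exp x₀ * Real.exp (-δ) := by
      rw [← Real.exp_add]; exact Real.exp_le_exp.2 (by linarith)
    have h2 : Real.exp (-δ) ≤ 1 - δ / 2 := by
      have h3 : (1 - δ / 2) * Real.exp δ ≥ 1 := by
        have h4 := Real.add_one_le_exp δ
        nlinarith
      rw [Real.exp_neg, inv_eq_one_div, div_le_iff₀ (Real.exp_pos _)]
      linarith
    have h3 : 2 * Real.pi * Real.exp s ≤ k * (1 - δ / 2) := by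
      calc 2 * Real.pi * Real.exp s ≤ 2 * Real.pi * (Real.exp x₀ * Real.exp (-δ)) := by gcongr
        _ = k * Real.exp (-δ) := by rw [← hx]; ring
        _ ≤ k * (1 - δ / 2) := by gcongr
    unfold pp
    nlinarith
  have hR : ∀ s, x₀ + δ ≤ s → pp k s ≤ -(r / 2) := by
    intro s hs
    have h1 : Real.exp x₀ * Real.exp δ ≤ Real.exp s := by
      rw [← Real.exp_add]; exact Real.exp_le_exp.2 hs
    have h2 := Real.add_one_le_exp δ
    have h3 : k * (1 + δ) ≤ 2 * Real.pi * Real.exp s := by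
      calc k * (1 + δ) ≤ k * Real.exp δ := by gcongr; linarith
        _ = 2 * Real.pi * (Real.exp x₀ * Real.exp δ) := by rw [← hx]; ring
        _ ≤ 2 * Real.pi * Real.exp s := by gcongr
    unfold pp
    nlinarith
  have hint : ∀ a b : ℝ, IntervalIntegrable (fun s => ep k (-(2 * Real.pi)) s) volume a b :=
    fun a b => (cont_ep k).intervalIntegrable _ _
  have h6 : 3 / (r / 2) = 6 / r := by field_simp; norm_num
  have hA : ∀ a b : ℝ, a ≤ b → b ≤ x₀ - δ → ‖∫ s in a..b, ep k (-(2 * Real.pi)) s‖ ≤ 6 / r := by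
    intro a b hab hb
    rw [← h6]
    exact fdt k a b (r / 2) hab (by positivity) (Or.inl fun s hs => hL s (hs.2.trans hb))
  have hB : ∀ a b : ℝ, a ≤ b → x₀ + δ ≤ a → ‖∫ s in a..b, ep k (-(2 * Real.pi)) s‖ ≤ 6 / r := by
    intro a b hab hb
    rw [← h6]
    exact fdt k a b (r / 2) hab (by positivity) (Or.inr fun s hs => hR s (hb.trans hs.1))
  -- clamps
  set c₁ : ℝ := max a (min b (x₀ - δ)) with hc₁
  set c₂ : ℝ := max c₁ (min b (x₀ + δ)) with hc₂
  have ha1 : a ≤ c₁ := le_max_left _ _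
  have h12 : c₁ ≤ c₂ := le_max_left _ _
  have h1b : c₁ ≤ b := max_le hab (min_le_left _ _)
  have h2b : c₂ ≤ b := max_le h1b (min_le_left _ _)
  have hp1 : ‖∫ s in a..c₁, ep k (-(2 * Real.pi)) s‖ ≤ 6 / r := by
    rcases le_or_gt (min b (x₀ - δ)) a with h | h
    · rw [hc₁, max_eq_left h, intervalIntegral.integral_same, norm_zero]; positivity
    · refine hA a c₁ ha1 ?_
      rw [hc₁, max_eq_right h.le]
      exact min_le_right _ _
  have hp3 : ‖∫ s in c₂..b, ep k (-(2 * Real.pi)) s‖ ≤ 6 / r := by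
    rcases le_or_gt b (x₀ + δ) with h | h
    · have : c₂ = b := le_antisymm h2b (by rw [hc₂, min_eq_left h]; exact le_max_right _ _)
      rw [this, intervalIntegral.integral_same, norm_zero]; positivity
    · refine hB c₂ b h2b ?_
      rw [hc₂, min_eq_right h.le]
      exact le_max_right _ _
  have hp2 : ‖∫ s in c₁..c₂, ep k (-(2 * Real.pi)) s‖ ≤ 2 / r := by
    refine (triv k c₁ c₂ h12).trans ?_
    have h7 : c₂ ≤ c₁ + 2 * δ := by
      rw [hc₂]
      refine max_le (by linarith) ?_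
      rcases le_total b (x₀ - δ) with h | h
      · have : b ≤ c₁ := by rw [hc₁, min_eq_left h]; exact le_max_right _ _
        exact (min_le_left _ _).trans (by linarith)
      · have : x₀ - δ ≤ c₁ := by rw [hc₁, min_eq_right h]; exact le_max_right _ _
        exact (min_le_right _ _).trans (by linarith)
    have h8 : 2 / r = 2 * δ := by rw [hδ]; ring
    rw [h8]
    linarith
  have hsum : ∫ s in a..b, ep k (-(2 * Real.pi)) s = (∫ s in a..c₁, ep k (-(2 * Real.pi)) s) +
      (∫ s in c₁..c₂, ep k (-(2 * Real.pi)) s) + ∫ s in c₂..b, ep k (-(2 * Real.pi)) s := by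
    rw [intervalIntegral.integral_add_adjacent_intervals (hint _ _) (hint _ _),
      intervalIntegral.integral_add_adjacent_intervals (hint _ _) (hint _ _)]
  rw [hsum]
  refine (norm_add₃_le).trans ?_
  have h9 : 14 / r = 6 / r + 2 / r + 6 / r := by ring
  rw [h9]
  linarith

end Pool.Agent.Q177.KT.EI
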