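import Pool.Agent.Q240.KT.Stm
import Pool.Agent.Q257.KS.LSD

/-! # KT-RT1 (helper177, for helper240): reduction of the mean value to counting -/

set_option autoImplicit false

namespace Pool.Agent.Q177.KT.RT1
open Finset Pool.Agent.H376R2.MR Pool.Agent.Q240.KS Pool.Agent.Q240.KT
open Pool.Agent.Q257.KS (ek ek_mul Fj_even)

/-- expansion of the mean square with the Fejer kernel -/
lemma expand {ι : Type*} (K : ℕ) (hK : 1 ≤ K) (P : Finset ι) (x : ι → ℝ) (B : ι → ℂ) (β : ℝ)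
    (hβ : ∀ p ∈ P, ‖B p‖ ≤ β) :
    ∑ k ∈ FK K, ‖∑ p ∈ P, B p * ek k (x p)‖ ^ 2 ≤ 2 * (β ^ 2 * ∑ p ∈ P, ∑ p' ∈ P, Fj (2 * K) (x p' - x p)) := by
  have hK0 : (0 : ℝ) < K := by exact_mod_cast hK
  have h1 : ∑ k ∈ FK K, ‖∑ p ∈ P, B p * ek k (x p)‖ ^ 2 ≤
      2 * ∑ k ∈ FK (2 * K), (1 - |(k : ℝ)| / ((2 * K : ℕ) : ℝ)) * ‖∑ p ∈ P, B p * ek k (x p)‖ ^ 2 := by
    rw [Finset.mul_sum]
    have hsub : FK K ⊆ FK (2 * K) := by
      intro k hk
      simp only [FK, Finset.mem_Ioo] at hk ⊢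
      push_cast
      omega
    refine le_trans ?_ (Finset.sum_le_sum_of_subset_of_nonneg hsub ?_)
    · refine Finset.sum_le_sum fun k hk => ?_
      simp only [FK, Finset.mem_Ioo] at hk
      have hk1 : |(k : ℝ)| ≤ K := by
        rw [abs_le]
        have h1 : -(K : ℝ) < k := by exact_mod_cast hk.1
        have h2 : (k : ℝ) < K := by exact_mod_cast hk.2
        exact ⟨h1.le, h2.le⟩
      have h2 : |(k : ℝ)| / ((2 * K : ℕ) : ℝ) ≤ 1 / 2 := by
        push_cast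
        rw [div_le_div_iff₀ (by positivity) (by norm_num)]
        linarith
      nlinarith [sq_nonneg ‖∑ p ∈ P, B p * ek k (x p)‖]
    · intro k hk _
      simp only [FK, Finset.mem_Ioo] at hk
      have hk1 : |(k : ℝ)| ≤ ((2 * K : ℕ) : ℝ) := by
        rw [abs_le]
        have h1 : -((2 * K : ℕ) : ℝ) < k := by exact_mod_cast hk.1
        have h2 : (k : ℝ) < ((2 * K : ℕ) : ℝ) := by exact_mod_cast hk.2
        exact ⟨h1.le, h2.le⟩
      have h2 : |(k : ℝ)| / ((2 * K : ℕ) : ℝ) ≤ 1 := div_le_one_of_le₀ hk1 (by positivity)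
      have h3 : 0 ≤ 1 - |(k : ℝ)| / ((2 * K : ℕ) : ℝ) := by linarith
      positivity
  have h2 : ((∑ k ∈ FK (2 * K), (1 - |(k : ℝ)| / ((2 * K : ℕ) : ℝ)) * ‖∑ p ∈ P, B p * ek k (x p)‖ ^ 2 : ℝ) : ℂ) =
      ∑ u ∈ P, ∑ u' ∈ P, B u * (starRingEnd ℂ) (B u') * (Fj (2 * K) (x u' - x u) : ℂ) := by
    rw [Complex.ofReal_sum]
    have h3 : ∀ k ∈ FK (2 * K), (((1 - |(k : ℝ)| / ((2 * K : ℕ) : ℝ)) * ‖∑ p ∈ P, B p * ek k (x p)‖ ^ 2 : ℝ) : ℂ) =
        ∑ u ∈ P, ∑ u' ∈ P, B u * (starRingEnd ℂ) (B u') * (((1 - |(k : ℝ)| / ((2 * K : ℕ) : ℝ) : ℝ) : ℂ) *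
          Complex.exp (-((k * (x u' - x u) : ℝ) : ℂ) * Complex.I)) := by
      intro k _
      have h4 : (((‖∑ p ∈ P, B p * ek k (x p)‖ ^ 2 : ℝ)) : ℂ) =
          (∑ p ∈ P, B p * ek k (x p)) * (starRingEnd ℂ) (∑ p ∈ P, B p * ek k (x p)) := by
        rw [Complex.mul_conj, Complex.normSq_eq_norm_sq]
      rw [Complex.ofReal_mul, h4, map_sum, Finset.sum_mul_sum, Finset.mul_sum]
      refine Finset.sum_congr rfl fun u _ => ?_
      rw [Finset.mul_sum]
      refine Finset.sum_congr rfl fun u' _ => ?_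
      rw [← ek_mul, map_mul]
      ring
    rw [Finset.sum_congr rfl h3, Finset.sum_comm]
    refine Finset.sum_congr rfl fun u _ => ?_
    rw [Finset.sum_comm]
    refine Finset.sum_congr rfl fun u' _ => ?_
    rw [← Finset.mul_sum, fej_exp]
  have h3 : ∑ k ∈ FK (2 * K), (1 - |(k : ℝ)| / ((2 * K : ℕ) : ℝ)) * ‖∑ p ∈ P, B p * ek k (x p)‖ ^ 2 ≤
      ∑ u ∈ P, ∑ u' ∈ P, β ^ 2 * Fj (2 * K) (x u' - x u) := by
    have h4 : ∑ k ∈ FK (2 * K), (1 - |(k : ℝ)| / ((2 * K : ℕ) : ℝ)) * ‖∑ p ∈ P, B p * ek k (x p)‖ ^ 2 ≤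
        ‖∑ u ∈ P, ∑ u' ∈ P, B u * (starRingEnd ℂ) (B u') * (Fj (2 * K) (x u' - x u) : ℂ)‖ := by
      rw [← h2, Complex.norm_real]
      exact le_abs_self _
    refine h4.trans ((norm_sum_le _ _).trans (Finset.sum_le_sum fun u hu => (norm_sum_le _ _).trans
      (Finset.sum_le_sum fun u' hu' => ?_)))
    rw [norm_mul, norm_mul, RCLike.norm_conj, Complex.norm_real, Real.norm_eq_abs, abs_of_nonneg (Fj_nonneg _ _)]
    refine mul_le_mul_of_nonneg_right ?_ (Fj_nonneg _ _)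
    rw [sq]
    exact mul_le_mul (hβ u hu) (hβ u' hu') (norm_nonneg _) ((norm_nonneg _).trans (hβ u hu))
  simp only [← Finset.mul_sum] at h3
  linarith

/-- finite sums of `1/(1+|a-b|)²` over integers `b` -/
lemma sum_int (J : Finset ℤ) (a : ℤ) : ∑ b ∈ J, 1 / (1 + |((a - b : ℤ) : ℝ)|) ^ 2 ≤ 4 := by
  classical
  -- bound over natural numbers
  have hN : ∀ N : ℕ, ∑ r ∈ range N, 1 / (1 + (r : ℝ)) ^ 2 ≤ 2 := by
    intro N
    have key : ∀ N : ℕ, ∑ r ∈ range N, 1 / (1 + (r : ℝ)) ^ 2 ≤ 2 - 1 / ((N : ℝ) + 1 / 2) := by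
      intro N
      induction N with
      | zero => norm_num
      | succ N ih =>
        rw [Finset.sum_range_succ]
        have hN0 : (0 : ℝ) ≤ N := Nat.cast_nonneg N
        have h2 : 1 / (1 + (N : ℝ)) ^ 2 ≤ 1 / ((N : ℝ) + 1 / 2) - 1 / (((N + 1 : ℕ) : ℝ) + 1 / 2) := by
          push_cast
          rw [div_sub_div _ _ (by linarith) (by linarith), div_le_div_iff₀ (by positivity) (by positivity)]
          nlinarith
        linarith
    have := key N
    have h0 : (0 : ℝ) ≤ 1 / ((N : ℝ) + 1 / 2) := by positivity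
    linarith
  have hpart : ∀ (T : Finset ℤ) (f : ℤ → ℕ), Set.InjOn f T → (∀ b ∈ T, |((a - b : ℤ) : ℝ)| = f b) →
      ∑ b ∈ T, 1 / (1 + |((a - b : ℤ) : ℝ)|) ^ 2 ≤ 2 := by
    intro T f hinj hf
    calc ∑ b ∈ T, 1 / (1 + |((a - b : ℤ) : ℝ)|) ^ 2 = ∑ b ∈ T, 1 / (1 + (f b : ℝ)) ^ 2 :=
          Finset.sum_congr rfl fun b hb => by rw [hf b hb]
      _ = ∑ r ∈ T.image f, 1 / (1 + (r : ℝ)) ^ 2 := by rw [Finset.sum_image hinj]
      _ ≤ ∑ r ∈ range ((T.image f).sup id + 1), 1 / (1 + (r : ℝ)) ^ 2 := by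
          refine Finset.sum_le_sum_of_subset_of_nonneg ?_ (fun r _ _ => by positivity)
          intro r hr
          have : r ≤ (T.image f).sup id := Finset.le_sup (f := id) hr
          exact Finset.mem_range.2 (by omega)
      _ ≤ 2 := hN _
  rw [← Finset.sum_filter_add_sum_filter_not J (fun b => b ≤ a)]
  have h1 := hpart (J.filter (fun b => b ≤ a)) (fun b => (a - b).toNat) (by
    intro b hb b' hb' h
    simp only [Finset.coe_filter, Set.mem_setOf_eq] at hb hb' h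
    omega) (by
    intro b hb
    have hb' := (Finset.mem_filter.1 hb).2
    have h1 : (((a - b).toNat : ℤ)) = a - b := Int.toNat_of_nonneg (by omega)
    have h2 : (((a - b).toNat : ℕ) : ℝ) = ((a - b : ℤ) : ℝ) := by
      have : (((a - b).toNat : ℤ) : ℝ) = ((a - b : ℤ) : ℝ) := by rw [h1]
      exact_mod_cast this
    rw [h2]
    exact abs_of_nonneg (by exact_mod_cast (by omega : (0 : ℤ) ≤ a - b)))
  have h2 := hpart (J.filter (fun b => ¬ b ≤ a)) (fun b => (b - a).toNat) (by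
    intro b hb b' hb' h
    simp only [Finset.coe_filter, Set.mem_setOf_eq] at hb hb' h
    omega) (by
    intro b hb
    have hb' := (Finset.mem_filter.1 hb).2
    have h1 : (((b - a).toNat : ℤ)) = b - a := Int.toNat_of_nonneg (by omega)
    have h2 : (((b - a).toNat : ℕ) : ℝ) = ((b - a : ℤ) : ℝ) := by
      have : (((b - a).toNat : ℤ) : ℝ) = ((b - a : ℤ) : ℝ) := by rw [h1]
      exact_mod_cast this
    rw [h2]
    have h3 : ((a - b : ℤ) : ℝ) = -((b - a : ℤ) : ℝ) := by push_cast; ring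
    rw [h3, abs_neg]
    exact abs_of_nonneg (by exact_mod_cast (by omega : (0 : ℤ) ≤ b - a)))
  linarith

/-- the double sum over pairs is at most four times the number of pairs in the same cell -/
lemma cells {ι : Type*} [DecidableEq ι] (P : Finset ι) (j : ι → ℤ) :
    ∑ p ∈ P, ∑ p' ∈ P, 1 / (1 + |((j p - j p' : ℤ) : ℝ)|) ^ 2 ≤
      4 * (((P ×ˢ P).filter (fun q => j q.1 = j q.2)).card : ℝ) := by
  classical
  set J := P.image j with hJ
  set n : ℤ → ℝ := fun a => ((P.filter (fun p => j p = a)).card : ℝ) with hn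
  set g : ℤ → ℤ → ℝ := fun a b => 1 / (1 + |((a - b : ℤ) : ℝ)|) ^ 2 with hg
  have hcomp : ∀ f : ℤ → ℝ, ∑ p ∈ P, f (j p) = ∑ a ∈ J, n a * f a := by
    intro f
    rw [Finset.sum_comp f j]
    refine Finset.sum_congr rfl fun a _ => ?_
    rw [nsmul_eq_mul]
  have hgs : ∀ a b, g a b = g b a := by
    intro a b
    simp only [hg]
    have : ((a - b : ℤ) : ℝ) = -((b - a : ℤ) : ℝ) := by push_cast; ring
    rw [this, abs_neg]
  have hg0 : ∀ a b, 0 ≤ g a b := by intro a b; simp only [hg]; positivity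
  have hn0 : ∀ a, 0 ≤ n a := by intro a; simp only [hn]; positivity
  have h1 : ∑ p ∈ P, ∑ p' ∈ P, g (j p) (j p') = ∑ a ∈ J, ∑ b ∈ J, n a * n b * g a b := by
    have e1 : ∀ p ∈ P, ∑ p' ∈ P, g (j p) (j p') = ∑ b ∈ J, n b * g (j p) b := fun p _ => hcomp (g (j p))
    rw [Finset.sum_congr rfl e1, hcomp (fun a => ∑ b ∈ J, n b * g a b)]
    refine Finset.sum_congr rfl fun a _ => ?_
    rw [Finset.mul_sum]
    refine Finset.sum_congr rfl fun b _ => ?_
    ring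
  have h2 : ∑ a ∈ J, ∑ b ∈ J, n a * n b * g a b ≤ ∑ a ∈ J, n a ^ 2 * ∑ b ∈ J, g a b := by
    have e1 : ∑ a ∈ J, ∑ b ∈ J, n a * n b * g a b ≤
        ∑ a ∈ J, ∑ b ∈ J, (n a ^ 2 / 2 * g a b + n b ^ 2 / 2 * g a b) := by
      refine Finset.sum_le_sum fun a _ => Finset.sum_le_sum fun b _ => ?_
      have := hg0 a b
      nlinarith [sq_nonneg (n a - n b), mul_nonneg (sq_nonneg (n a - n b)) this]
    refine e1.trans (le_of_eq ?_)
    simp only [Finset.sum_add_distrib]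
    have e2 : ∑ a ∈ J, ∑ b ∈ J, n b ^ 2 / 2 * g a b = ∑ a ∈ J, ∑ b ∈ J, n a ^ 2 / 2 * g a b := by
      rw [Finset.sum_comm]
      refine Finset.sum_congr rfl fun a _ => Finset.sum_congr rfl fun b _ => ?_
      rw [hgs]
    rw [e2, ← Finset.sum_add_distrib]
    refine Finset.sum_congr rfl fun a _ => ?_
    rw [← Finset.mul_sum]
    ring
  have h3 : ∑ a ∈ J, n a ^ 2 * ∑ b ∈ J, g a b ≤ 4 * ∑ a ∈ J, n a ^ 2 := by
    rw [Finset.mul_sum]
    refine Finset.sum_le_sum fun a _ => ?_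
    rw [mul_comm (4 : ℝ)]
    exact mul_le_mul_of_nonneg_left (sum_int J a) (sq_nonneg _)
  have h4 : ∑ a ∈ J, n a ^ 2 = (((P ×ˢ P).filter (fun q => j q.1 = j q.2)).card : ℝ) := by
    have e1 : ∑ a ∈ J, n a ^ 2 = ∑ p ∈ P, n (j p) := by
      rw [hcomp n]
      exact Finset.sum_congr rfl fun a _ => sq (n a)
    rw [e1, Finset.card_filter, Finset.sum_product]
    push_cast
    refine Finset.sum_congr rfl fun p _ => ?_
    simp only [hn]
    rw [Finset.card_filter]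
    push_cast
    refine Finset.sum_congr rfl fun p' _ => ?_
    simp only [eq_comm]
  have h5 : ∑ p ∈ P, ∑ p' ∈ P, 1 / (1 + |((j p - j p' : ℤ) : ℝ)|) ^ 2 =
      ∑ p ∈ P, ∑ p' ∈ P, g (j p) (j p') := rfl
  rw [h5, h1, ← h4]
  exact h2.trans h3

/-- the kernel in terms of the cells -/
lemma kernel (K : ℕ) (hK : 1 ≤ K) (x y : ℝ) (hxy : |x - y| ≤ 2) :
    Fj (2 * K) (x - y) ≤ 45 * K * (1 / (1 + |((⌊(K : ℝ) * x⌋ - ⌊(K : ℝ) * y⌋ : ℤ) : ℝ)|) ^ 2) := by
  have hK0 : (0 : ℝ) < K := by exact_mod_cast hK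
  have hpi3 := Real.pi_gt_three
  have hpi4 : Real.pi ^ 2 ≤ 10 := by nlinarith [Real.pi_lt_d2]
  set r : ℝ := |((⌊(K : ℝ) * x⌋ - ⌊(K : ℝ) * y⌋ : ℤ) : ℝ)| with hr
  have hr0 : 0 ≤ r := abs_nonneg _
  rcases le_or_gt r 1 with h | h
  · have h1 := Fj_le (2 * K) (x - y)
    push_cast at h1
    have h2 : 1 / 4 ≤ 1 / (1 + r) ^ 2 := by
      rw [div_le_div_iff₀ (by norm_num) (by positivity)]
      nlinarith
    nlinarith
  · have h2 : 2 ≤ r := by
      have e1 : r = ((|⌊(K : ℝ) * x⌋ - ⌊(K : ℝ) * y⌋| : ℤ) : ℝ) := by rw [hr, Int.cast_abs]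
      rw [e1] at h ⊢
      have h' : (1 : ℤ) < |⌊(K : ℝ) * x⌋ - ⌊(K : ℝ) * y⌋| := by exact_mod_cast h
      exact_mod_cast (by omega : (2 : ℤ) ≤ |⌊(K : ℝ) * x⌋ - ⌊(K : ℝ) * y⌋|)
    have a1 := Int.floor_le ((K : ℝ) * x)
    have a2 := Int.lt_floor_add_one ((K : ℝ) * x)
    have a3 := Int.floor_le ((K : ℝ) * y)
    have a4 := Int.lt_floor_add_one ((K : ℝ) * y)
    have h3 : r - 1 ≤ K * |x - y| := by
      have e1 : (K : ℝ) * |x - y| = |(K : ℝ) * x - K * y| := by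
        rw [← mul_sub, abs_mul, abs_of_pos hK0]
      rw [e1, hr]
      push_cast
      rcases abs_cases ((⌊(K : ℝ) * x⌋ : ℝ) - ⌊(K : ℝ) * y⌋) with h | h <;>
      rcases abs_cases ((K : ℝ) * x - K * y) with h' | h' <;> linarith
    have h4 : 0 < |x - y| := by
      by_contra hc
      have : |x - y| = 0 := le_antisymm (not_lt.1 hc) (abs_nonneg _)
      rw [this] at h3
      linarith
    have h5 := Fj_le_sq (K := 2 * K) (by omega) (abs_pos.1 h4) (hxy.trans (by linarith))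
    refine h5.trans ?_
    push_cast
    have h6 : (1 + r) / (3 * K) ≤ |x - y| := by
      rw [div_le_iff₀ (by positivity)]
      nlinarith
    have h7 : ((1 + r) / (3 * K)) ^ 2 ≤ (x - y) ^ 2 := by
      rw [← sq_abs (x - y)]
      exact pow_le_pow_left₀ (by positivity) h6 2
    calc Real.pi ^ 2 / (2 * K * (x - y) ^ 2) ≤ Real.pi ^ 2 / (2 * K * ((1 + r) / (3 * K)) ^ 2) := by gcongr
      _ = Real.pi ^ 2 * (9 / 2 * K * (1 / (1 + r) ^ 2)) := by field_simp; norm_num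
      _ ≤ 10 * (9 / 2 * K * (1 / (1 + r) ^ 2)) := by gcongr
      _ = _ := by ring

theorem rt1 : S_RT1 := by
  classical
  refine ⟨2000, by norm_num, ?_⟩
  intro K v U c s b A M hK hU hc hM hA hs
  have hK0 : (0 : ℝ) < K := by exact_mod_cast hK
  have hM0 : (0 : ℝ) < M := by linarith
  set P : Finset (ℝ × ℕ) := U ×ˢ s with hP
  set x : ℝ × ℕ → ℝ := fun p => p.1 - Real.log p.2 with hx
  set B : ℝ × ℕ → ℂ := fun p => c p.1 * b p.2 with hB
  have hF : ∀ k : ℤ, RU U c k * DP s b k = ∑ p ∈ P, B p * ek k (x p) := by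
    intro k
    rw [RU, DP, Finset.sum_mul_sum, hP, Finset.sum_product]
    refine Finset.sum_congr rfl fun u _ => Finset.sum_congr rfl fun m _ => ?_
    simp only [hB, hx, ek, ch]
    have : Complex.exp (((k : ℝ) * (u - Real.log m) : ℝ) * Complex.I) =
        Complex.exp (((k : ℝ) * u : ℝ) * Complex.I) * Complex.exp (-((k : ℝ) * Real.log m : ℝ) * Complex.I) := by
      rw [← Complex.exp_add]
      congr 1
      push_cast
      ring
    rw [this]
    ring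
  have hβ : ∀ p ∈ P, ‖B p‖ ≤ 2 * A / M := by
    intro p hp
    have hp' := Finset.mem_product.1 hp
    obtain ⟨h1, h2, h3⟩ := hs p.2 hp'.2
    have hm0 : (0 : ℝ) < p.2 := by exact_mod_cast h1
    have h4 := hc p.1 hp'.1
    have h5 : M / 2 ≤ p.2 := by
      have h6 : Real.log M - 1 / 2 ≤ Real.log p.2 := by
        have := (abs_le.1 h2).1; linarith
      have h7 : Real.exp (Real.log M - 1 / 2) ≤ p.2 := by
        rw [← Real.exp_log hm0]
        exact Real.exp_le_exp.2 h6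
      rw [Real.exp_sub, Real.exp_log hM0] at h7
      have h8 : Real.exp (1 / 2) ≤ 2 := by
        have h9 : Real.exp (1 / 2) ^ 2 = Real.exp 1 := by
          rw [← Real.exp_nat_mul]; norm_num
        have := Real.exp_one_lt_d9
        nlinarith [Real.exp_pos (1 / 2)]
      calc M / 2 ≤ M / Real.exp (1 / 2) := by gcongr
        _ ≤ p.2 := h7
    calc ‖B p‖ = ‖c p.1‖ * ‖b p.2‖ := by simp only [hB, norm_mul]
      _ ≤ 1 * (A / p.2) := mul_le_mul h4 h3 (norm_nonneg _) zero_le_one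
      _ = A / p.2 := one_mul _
      _ ≤ A / (M / 2) := by gcongr
      _ = 2 * A / M := by field_simp
  have h1 : ∑ k ∈ FK K, ‖RU U c k * DP s b k‖ ^ 2 ≤
      2 * ((2 * A / M) ^ 2 * ∑ p ∈ P, ∑ p' ∈ P, Fj (2 * K) (x p' - x p)) := by
    simp only [hF]
    exact expand K hK P x B _ hβ
  set j : ℝ × ℕ → ℤ := fun p => ⌊(K : ℝ) * x p⌋ with hj
  have h2 : ∑ p ∈ P, ∑ p' ∈ P, Fj (2 * K) (x p' - x p) ≤
      45 * K * ∑ p ∈ P, ∑ p' ∈ P, 1 / (1 + |((j p - j p' : ℤ) : ℝ)|) ^ 2 := by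
    rw [Finset.mul_sum]
    refine Finset.sum_le_sum fun p hp => ?_
    rw [Finset.mul_sum]
    refine Finset.sum_le_sum fun p' hp' => ?_
    rw [← Fj_even, neg_sub]
    refine kernel K hK (x p) (x p') ?_
    have hp1 := Finset.mem_product.1 hp
    have hp2 := Finset.mem_product.1 hp'
    have a1 := hU p.1 hp1.1
    have a2 := hU p'.1 hp2.1
    have a3 := abs_le.1 (hs p.2 hp1.2).2.1
    have a4 := abs_le.1 (hs p'.2 hp2.2).2.1
    simp only [hx]
    rw [abs_le]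
    constructor <;> linarith [a1.1, a1.2, a2.1, a2.2, a3.1, a3.2, a4.1, a4.2]
  have h3 := cells P j
  have h4 : (((P ×ˢ P).filter (fun q => j q.1 = j q.2)).card : ℝ) ≤ NQ U s K := by
    have : ((P ×ˢ P).filter (fun q => j q.1 = j q.2)).card ≤ NQ U s K := by
      unfold NQ
      refine Finset.card_le_card_of_injOn (fun q => ((q.1.1, q.2.1), (q.1.2, q.2.2))) ?_ ?_
      · intro q hq
        have hq' := Finset.mem_filter.1 hq
        have hq1 := Finset.mem_product.1 hq'.1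
        have hq2 := Finset.mem_product.1 hq1.1
        have hq3 := Finset.mem_product.1 hq1.2
        have hq4 := hq'.2
        simp only [Finset.coe_filter, Set.mem_setOf_eq, Finset.mem_product]
        refine ⟨⟨⟨hq2.1, hq3.1⟩, hq2.2, hq3.2⟩, ?_⟩
        simp only [hj] at hq4
        have a1 := Int.floor_le ((K : ℝ) * x q.1)
        have a2 := Int.lt_floor_add_one ((K : ℝ) * x q.1)
        have a3 := Int.floor_le ((K : ℝ) * x q.2)
        have a4 := Int.lt_floor_add_one ((K : ℝ) * x q.2)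
        rw [hq4] at a1 a2
        have e1 : q.1.1 - q.2.1 - (Real.log q.1.2 - Real.log q.2.2) = x q.1 - x q.2 := by
          simp only [hx]; ring
        rw [e1, le_div_iff₀ hK0]
        have e2 : |x q.1 - x q.2| * K = |(K : ℝ) * x q.1 - K * x q.2| := by
          rw [← mul_sub, abs_mul, abs_of_pos hK0, mul_comm]
        rw [e2, abs_le]
        constructor <;> linarith
      · rintro ⟨⟨u, m⟩, ⟨u', m'⟩⟩ _ ⟨⟨w1, l1⟩, ⟨w2, l2⟩⟩ _ h
        simp only [Prod.mk.injEq] at h ⊢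
        tauto
    exact_mod_cast this
  have hN0 : (0 : ℝ) ≤ NQ U s K := Nat.cast_nonneg _
  calc ∑ k ∈ FK K, ‖RU U c k * DP s b k‖ ^ 2
      ≤ 2 * ((2 * A / M) ^ 2 * ∑ p ∈ P, ∑ p' ∈ P, Fj (2 * K) (x p' - x p)) := h1
    _ ≤ 2 * ((2 * A / M) ^ 2 * (45 * K * (4 * NQ U s K))) := by
        have h5 : ∑ p ∈ P, ∑ p' ∈ P, Fj (2 * K) (x p' - x p) ≤ 45 * K * (4 * NQ U s K) :=
          h2.trans (mul_le_mul_of_nonneg_left (h3.trans (by linarith)) (by positivity))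
        gcongr
    _ = 1440 * A ^ 2 * K / M ^ 2 * NQ U s K := by field_simp; ring
    _ ≤ 2000 * A ^ 2 * K / M ^ 2 * NQ U s K := by
        have : (0 : ℝ) ≤ A ^ 2 * K / M ^ 2 * NQ U s K := by positivity
        have e1 : 1440 * A ^ 2 * K / M ^ 2 * NQ U s K = 1440 * (A ^ 2 * K / M ^ 2 * NQ U s K) := by ring
        have e2 : 2000 * A ^ 2 * K / M ^ 2 * NQ U s K = 2000 * (A ^ 2 * K / M ^ 2 * NQ U s K) := by ring
        rw [e1, e2]
        linarith

end Pool.Agent.Q177.KT.RT1
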